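import Pool.Agent.TH639.SE.Tw

/-!
Multiplicities, and the sum of the orders of vanishing of the twists.
-/

set_option autoImplicit false
set_option maxHeartbeats 1000000

open PowerSeries

namespace Pool.Agent.TH639.SE

open Pool.Agent.W313.Hyp Pool.Agent.W343.BSD

section alg

open Polynomial

variable {ℓ : ℕ}

theorem contract_geom (hℓ : 0 < ℓ) (q : ℤ) :
    contract ℓ (∑ i ∈ Finset.range ℓ, (Polynomial.C q * Polynomial.X : ℤ[X]) ^ i) = 1 := by
  ext n
  rw [coeff_contract hℓ.ne', Polynomial.finsetSum_coeff, Polynomial.coeff_one]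
  have h1 : ∀ i ∈ Finset.range ℓ, ((Polynomial.C q * Polynomial.X : ℤ[X]) ^ i).coeff (n * ℓ) =
      if n = 0 ∧ i = 0 then 1 else 0 := by
    intro i hi
    rw [Finset.mem_range] at hi
    rw [mul_pow, ← Polynomial.C_pow, Polynomial.coeff_C_mul, Polynomial.coeff_X_pow]
    rcases Nat.eq_zero_or_pos n with h0 | h0
    · subst h0
      rcases Nat.eq_zero_or_pos i with h | h
      · subst h; simp
      · rw [if_neg (by omega), if_neg (by omega), mul_zero]
    · have h2 : ℓ ≤ n * ℓ := Nat.le_mul_of_pos_left ℓ h0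
      rw [if_neg (by omega), if_neg (by omega), mul_zero]
  rw [Finset.sum_congr rfl h1]
  rcases Nat.eq_zero_or_pos n with h0 | h0
  · subst h0
    simp [hℓ.ne']
  · rw [Finset.sum_eq_zero]
    · rw [if_neg h0.ne']
    · intro i _
      rw [if_neg (by omega)]

theorem relPrime_geom (hℓ : 0 < ℓ) (q : ℤ) :
    IsRelPrime (1 - Polynomial.C q * Polynomial.X : ℤ[X])
      (∑ i ∈ Finset.range ℓ, (Polynomial.C q * Polynomial.X : ℤ[X]) ^ i) := by
  intro u h1 h2
  have h3 : u ∣ (Polynomial.C (ℓ : ℤ) : ℤ[X]) := by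
    have h4 : (∑ i ∈ Finset.range ℓ, (Polynomial.C q * Polynomial.X : ℤ[X]) ^ i) -
        (Polynomial.C (ℓ : ℤ) : ℤ[X]) =
        ∑ i ∈ Finset.range ℓ, ((Polynomial.C q * Polynomial.X : ℤ[X]) ^ i - 1) := by
      rw [Finset.sum_sub_distrib]
      simp
    have h5 : u ∣ ∑ i ∈ Finset.range ℓ, ((Polynomial.C q * Polynomial.X : ℤ[X]) ^ i - 1) := by
      refine Finset.dvd_sum fun i _ => ?_
      refine dvd_trans ?_ (sub_one_dvd_pow_sub_one _ i)
      have h6 : (Polynomial.C q * Polynomial.X : ℤ[X]) - 1 =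
          -(1 - Polynomial.C q * Polynomial.X) := by ring
      rw [h6, dvd_neg]
      exact h1
    rw [← h4] at h5
    exact (dvd_sub_right h2).1 h5
  have h5 : u.natDegree = 0 := by
    have h6 := Polynomial.natDegree_le_of_dvd h3 (by
      rw [Ne, Polynomial.C_eq_zero]
      exact_mod_cast hℓ.ne')
    rw [Polynomial.natDegree_C] at h6
    omega
  rw [Polynomial.eq_C_of_natDegree_eq_zero h5] at h1 ⊢
  have h7 := (Polynomial.C_dvd_iff_dvd_coeff _ _).1 h1 0
  rw [Polynomial.coeff_sub, Polynomial.coeff_one_zero, Polynomial.coeff_C_mul,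
    Polynomial.coeff_X_zero, mul_zero, sub_zero] at h7
  rw [Polynomial.isUnit_C]
  exact isUnit_of_dvd_one h7

theorem expand_linear (q : ℤ) :
    expand ℤ ℓ (1 - Polynomial.C (q ^ ℓ) * Polynomial.X) =
      (∑ i ∈ Finset.range ℓ, (Polynomial.C q * Polynomial.X : ℤ[X]) ^ i) *
        (1 - Polynomial.C q * Polynomial.X) := by
  rw [geom_sum_mul_neg, map_sub, map_one, map_mul, Polynomial.expand_C, Polynomial.expand_X,
    mul_pow, Polynomial.C_pow]

/-- a root `1 / q` of high order of `M(X ^ ℓ)` -/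
theorem dvd_of_expand (hℓ : 0 < ℓ) (q : ℤ) (r : ℕ) : ∀ M : ℤ[X],
    (1 - Polynomial.C q * Polynomial.X) ^ r ∣ expand ℤ ℓ M →
    (1 - Polynomial.C (q ^ ℓ) * Polynomial.X) ^ r ∣ M := by
  set U : ℤ[X] := ∑ i ∈ Finset.range ℓ, (Polynomial.C q * Polynomial.X : ℤ[X]) ^ i with hU
  have hne : (1 - Polynomial.C q * Polynomial.X : ℤ[X]) ≠ 0 := by
    intro h
    have h1 := congrArg (Polynomial.eval 0) h
    simp at h1
  induction r with
  | zero => intro M _; rw [pow_zero]; exact one_dvd _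
  | succ r ih =>
    intro M hM
    obtain ⟨G, hG⟩ := hM
    have h1 : U * expand ℤ ℓ M =
        ((1 - Polynomial.C q * Polynomial.X) ^ r * G) *
          expand ℤ ℓ (1 - Polynomial.C (q ^ ℓ) * Polynomial.X) := by
      rw [expand_linear, hG, ← hU]
      ring
    have h2 := congrArg (contract ℓ) h1
    rw [contract_mul_expand hℓ.ne', contract_mul_expand hℓ.ne', hU, contract_geom hℓ, one_mul] at h2
    set M1 := contract ℓ ((1 - Polynomial.C q * Polynomial.X) ^ r * G) with hM1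
    have h3 : (1 - Polynomial.C q * Polynomial.X) ^ r ∣ expand ℤ ℓ M1 := by
      have h4 : U * expand ℤ ℓ M1 = (1 - Polynomial.C q * Polynomial.X) ^ r * G := by
        apply mul_left_cancel₀ hne
        have h5 : expand ℤ ℓ M = expand ℤ ℓ M1 * (U * (1 - Polynomial.C q * Polynomial.X)) := by
          conv_lhs => rw [h2]
          rw [map_mul, expand_linear]
        calc (1 - Polynomial.C q * Polynomial.X) * (U * expand ℤ ℓ M1) = expand ℤ ℓ M := by
              rw [h5]; ring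
          _ = _ := by rw [hG]; ring
      have h6 : IsRelPrime ((1 - Polynomial.C q * Polynomial.X : ℤ[X]) ^ r) U :=
        (relPrime_geom hℓ q).pow_left
      exact h6.dvd_of_dvd_mul_left ⟨G, h4⟩
    obtain ⟨M2, hM2⟩ := ih M1 h3
    refine ⟨M2, ?_⟩
    rw [h2, hM2]
    ring

end alg

section ismu

variable {ℓ : ℕ} [hp : Fact ℓ.Prime]

/-- The power series is a polynomial, not zero, with multiplicity `n` of the root one. -/
def IsMu (p : PowerSeries (ZMod ℓ)) (n : ℕ) : Prop :=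
  ∃ P : Polynomial (ZMod ℓ), (P : PowerSeries (ZMod ℓ)) = p ∧ P ≠ 0 ∧ P.rootMultiplicity 1 = n

theorem IsMu.one : IsMu (1 : PowerSeries (ZMod ℓ)) 0 :=
  ⟨1, Polynomial.coe_one, one_ne_zero, rm_one 1⟩

theorem IsMu.zf {n : ℕ} (hn : 0 < n) :
    IsMu (1 - X ^ n : PowerSeries (ZMod ℓ)) (ℓ ^ padicValNat ℓ n) := by
  have h1 := Pool.Agent.W309.T3.binom_ne (F := ZMod ℓ) (c := 1) hn
  have h2 := Pool.Agent.W309.T3.rm_binom ℓ (c := 1) (x := 1) one_ne_zero hn
  rw [Polynomial.C_1, one_mul] at h1 h2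
  rw [if_pos (by simp)] at h2
  refine ⟨1 - Polynomial.X ^ n, ?_, h1, h2⟩
  rw [Polynomial.coe_sub, Polynomial.coe_one, Polynomial.coe_pow, Polynomial.coe_X]

theorem IsMu.oneX : IsMu (1 - X : PowerSeries (ZMod ℓ)) 1 := by
  have h := IsMu.zf (ℓ := ℓ) one_pos
  rwa [pow_one, padicValNat_one_right, pow_zero] at h

theorem IsMu.mul {p q : PowerSeries (ZMod ℓ)} {m n : ℕ} (hp : IsMu p m) (hq : IsMu q n) :
    IsMu (p * q) (m + n) := by
  obtain ⟨P, rfl, hP, rfl⟩ := hp
  obtain ⟨Q, rfl, hQ, rfl⟩ := hq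
  exact ⟨P * Q, Polynomial.coe_mul P Q, mul_ne_zero hP hQ, rm_mul 1 hP hQ⟩

theorem IsMu.pow {p : PowerSeries (ZMod ℓ)} {m : ℕ} (hp : IsMu p m) (n : ℕ) :
    IsMu (p ^ n) (n * m) := by
  induction n with
  | zero => rw [pow_zero, Nat.zero_mul]; exact IsMu.one
  | succ n ih => rw [pow_succ, Nat.succ_mul]; exact ih.mul hp

theorem IsMu.prod {ι : Type*} (s : Finset ι) {p : ι → PowerSeries (ZMod ℓ)} {m : ι → ℕ}
    (h : ∀ i ∈ s, IsMu (p i) (m i)) : IsMu (∏ i ∈ s, p i) (∑ i ∈ s, m i) := by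
  classical
  induction s using Finset.induction_on with
  | empty => exact IsMu.one
  | insert i s hi ih =>
    rw [Finset.prod_insert hi, Finset.sum_insert hi]
    exact (h i (Finset.mem_insert_self i s)).mul
      (ih fun j hj => h j (Finset.mem_insert_of_mem hj))

/-- **the sum of the orders of the twists** -/
theorem sum_bound {q : ℤ} (hq : ((q : ℤ) : ZMod ℓ) = 1) (L : ℕ → PowerSeries ℤ) (r : ℕ → ℕ)
    (G : ℕ → Polynomial ℤ)
    (hG : ∀ j ∈ Finset.range ℓ, L j =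
      (((1 - Polynomial.C q * Polynomial.X) ^ (r j) * G j : Polynomial ℤ) : PowerSeries ℤ))
    (hS : Sup ℓ (∏ j ∈ Finset.range ℓ, L j)) {A B : PowerSeries (ZMod ℓ)} {a b : ℕ}
    (hA : IsMu A a) (hB : IsMu B b)
    (hred : ∀ j ∈ Finset.range ℓ, red ℓ (L j) * A ^ (ℓ - 1) = B ^ (ℓ - 1)) :
    ∑ j ∈ Finset.range ℓ, r j + (ℓ - 1) * a ≤ (ℓ - 1) * b := by
  have hℓ : 0 < ℓ := hp.out.pos
  set R := ∑ j ∈ Finset.range ℓ, r j with hR
  set P : Polynomial ℤ := (1 - Polynomial.C q * Polynomial.X) ^ R *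
    ∏ j ∈ Finset.range ℓ, G j with hP
  have hprod : ∏ j ∈ Finset.range ℓ, L j = (P : PowerSeries ℤ) := by
    rw [Finset.prod_congr rfl hG, hP, hR, ← Finset.prod_pow_eq_pow_sum, ← Finset.prod_mul_distrib]
    exact (coe_prod' _ _).symm
  set M := Polynomial.contract ℓ P with hM
  have hexp : Polynomial.expand ℤ ℓ M = P := by
    ext n
    rw [Polynomial.coeff_expand hℓ, hM, Polynomial.coeff_contract hℓ.ne']
    split_ifs with h
    · rw [Nat.div_mul_cancel h]
    · have h1 := hS n h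
      rw [hprod, Polynomial.coeff_coe] at h1
      exact h1.symm
  obtain ⟨M1, hM1⟩ := dvd_of_expand hℓ q R M (by rw [hexp, hP]; exact dvd_mul_right _ _)
  set φ := Int.castRingHom (ZMod ℓ) with hφ
  have hPred : P.map φ = ((1 - Polynomial.X) ^ ℓ) ^ R * (Polynomial.expand ℤ ℓ M1).map φ := by
    rw [← hexp, hM1, map_mul, map_pow, Polynomial.map_mul, Polynomial.map_pow]
    congr 2
    rw [map_sub, map_one, map_mul, Polynomial.expand_C, Polynomial.expand_X, Polynomial.map_sub,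
      Polynomial.map_one, Polynomial.map_mul, Polynomial.map_C, Polynomial.map_pow,
      Polynomial.map_X, map_pow]
    have h3 : φ q = 1 := by rw [hφ, eq_intCast, hq]
    have hex : ExpChar (Polynomial (ZMod ℓ)) ℓ := inferInstance
    rw [h3, one_pow, Polynomial.C_1, one_mul, sub_pow_expChar, one_pow]
  have hredP : red ℓ (∏ j ∈ Finset.range ℓ, L j) = ((P.map φ : Polynomial (ZMod ℓ)) :
      PowerSeries (ZMod ℓ)) := by
    rw [hprod]
    ext n
    rw [PowerSeries.coeff_map, Polynomial.coeff_coe, Polynomial.coeff_coe, Polynomial.coeff_map]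
  have hmul : red ℓ (∏ j ∈ Finset.range ℓ, L j) * (A ^ (ℓ - 1)) ^ ℓ = (B ^ (ℓ - 1)) ^ ℓ := by
    rw [map_prod]
    have h1 : (A ^ (ℓ - 1)) ^ ℓ = ∏ j ∈ Finset.range ℓ, A ^ (ℓ - 1) := by
      rw [Finset.prod_const, Finset.card_range]
    have h2 : (B ^ (ℓ - 1)) ^ ℓ = ∏ j ∈ Finset.range ℓ, B ^ (ℓ - 1) := by
      rw [Finset.prod_const, Finset.card_range]
    rw [h1, h2, ← Finset.prod_mul_distrib]
    exact Finset.prod_congr rfl hred
  obtain ⟨A1, hA1, hA0, hAm⟩ := (hA.pow (ℓ - 1)).pow ℓ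
  obtain ⟨B1, hB1, hB0, hBm⟩ := (hB.pow (ℓ - 1)).pow ℓ
  rw [← hA1, ← hB1, hredP, ← Polynomial.coe_mul] at hmul
  have hpoly := Polynomial.coe_injective (ZMod ℓ) hmul
  have hP0 : P.map φ ≠ 0 := by
    intro h
    rw [h, zero_mul] at hpoly
    exact hB0 hpoly.symm
  have hrm := congrArg (Polynomial.rootMultiplicity 1) hpoly
  rw [rm_mul 1 hP0 hA0, hAm, hBm] at hrm
  rw [hPred] at hP0 hrm
  have hX : (1 - Polynomial.X : Polynomial (ZMod ℓ)) ≠ 0 := by
    have h1 := Pool.Agent.W309.T3.binom_ne (F := ZMod ℓ) (c := 1) one_pos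
    rwa [Polynomial.C_1, one_mul, pow_one] at h1
  have hXm : (1 - Polynomial.X : Polynomial (ZMod ℓ)).rootMultiplicity 1 = 1 := by
    have h2 := Pool.Agent.W309.T3.rm_binom ℓ (c := 1) (x := 1) one_ne_zero one_pos
    rwa [Polynomial.C_1, one_mul, pow_one, if_pos (by simp), padicValNat_one_right, pow_zero] at h2
  rw [rm_mul 1 (left_ne_zero_of_mul hP0) (right_ne_zero_of_mul hP0),
    rm_pow 1 (pow_ne_zero _ hX), rm_pow 1 hX, hXm] at hrm
  have h9 : ℓ * (R + (ℓ - 1) * a) ≤ ℓ * ((ℓ - 1) * b) := by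
    rw [mul_one] at hrm
    rw [← hrm, Nat.mul_add, Nat.mul_comm R ℓ]
    omega
  exact Nat.le_of_mul_le_mul_left h9 hℓ

end ismu

end Pool.Agent.TH639.SE
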