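import Pool.Agent.TH639.SE.Fin

/-!
The bound in terms of the prime factors.
-/

set_option autoImplicit false
set_option maxHeartbeats 1000000

open Polynomial

namespace Pool.Agent.TH639.SE

open Pool.Agent.W313.Hyp Pool.Agent.W343.BSD

section

variable {k : Type} [Field k]

open Classical in
/-- The monic irreducible factors of a polynomial. -/
noncomputable def primes (g : k[X]) : Finset k[X] :=
  (UniqueFactorizationMonoid.normalizedFactors g).toFinset

theorem mem_primes {g : k[X]} (hg : g ≠ 0) (P : k[X]) :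
    P ∈ primes g ↔ P.Monic ∧ Irreducible P ∧ P ∣ g := by
  classical
  unfold primes
  rw [Multiset.mem_toFinset, Polynomial.mem_normalizedFactors_iff hg]
  tauto

variable [Finite k]

theorem sum_primes {M : Type} [AddCommMonoid M] {g : k[X]} (hg : g ≠ 0) (h : k[X] → M) :
    ∑ P ∈ facs g, h P.1 = ∑ P ∈ primes g, h P := by
  classical
  refine Finset.sum_bij (fun P _ => P.1) ?_ ?_ ?_ ?_
  · intro P hP
    rw [mem_facs hg] at hP
    exact (mem_primes hg _).2 ⟨P.2.1, P.2.2, hP⟩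
  · intro P _ Q _ h
    exact Subtype.ext h
  · intro P hP
    obtain ⟨h1, h2, h3⟩ := (mem_primes hg _).1 hP
    exact ⟨⟨P, h1, h2⟩, (mem_facs hg _).2 h3, rfl⟩
  · intro P _
    rfl

open Classical in
/-- the bound -/
noncomputable def bnd (ℓ : ℕ) (f h D : k[X]) : ℤ :=
  1 + ∑ P ∈ primes (f.comp h), (ℓ ^ padicValNat ℓ P.natDegree : ℤ) +
    ∑ P ∈ primes D, (∑ R ∈ primes f, (Nat.gcd P.natDegree R.natDegree : ℤ) *
      (ℓ ^ padicValNat ℓ (Nat.lcm P.natDegree R.natDegree) : ℤ) -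
      (ℓ ^ padicValNat ℓ P.natDegree : ℤ)) -
    ∑ R ∈ primes f, (ℓ ^ padicValNat ℓ R.natDegree : ℤ) +
    (if ℓ ∣ h.natDegree + D.natDegree then
      1 - ∑ R ∈ primes f, (ℓ ^ padicValNat ℓ R.natDegree : ℤ) else 0)

theorem bnd_eq (ℓ : ℕ) {f h D : k[X]} (hf : f ≠ 0) (hfh : f.comp h ≠ 0) (hD : D ≠ 0)
    (hcop : IsCoprime D (f.comp h)) :
    (cB ℓ f h D : ℤ) - cA ℓ f h D = bnd ℓ f h D := by
  classical
  have h0 : facs (f.comp h) \ facs D = facs (f.comp h) := by
    rw [Finset.sdiff_eq_self_iff_disjoint, Finset.disjoint_left]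
    intro P hP hP'
    rw [mem_facs hfh] at hP
    rw [mem_facs hD] at hP'
    exact P.2.2.not_isUnit (hcop.isUnit_of_dvd' hP' hP)
  unfold cA cB bnd
  rw [h0, ← sum_primes hfh, ← sum_primes hD, Finset.sum_sub_distrib, ← sum_primes hf]
  have h1 : ∀ P : MI k, ∑ R ∈ primes f, (Nat.gcd P.1.natDegree R.natDegree : ℤ) *
      (ℓ ^ padicValNat ℓ (Nat.lcm P.1.natDegree R.natDegree) : ℤ) =
      ∑ R ∈ facs f, (Nat.gcd P.1.natDegree R.1.natDegree : ℤ) *
      (ℓ ^ padicValNat ℓ (Nat.lcm P.1.natDegree R.1.natDegree) : ℤ) := fun P =>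
    (sum_primes hf (fun R => (Nat.gcd P.1.natDegree R.natDegree : ℤ) *
      (ℓ ^ padicValNat ℓ (Nat.lcm P.1.natDegree R.natDegree) : ℤ))).symm
  rw [Finset.sum_congr rfl fun P _ => h1 P]
  split_ifs
  · push_cast
    ring
  · push_cast
    ring

omit [Finite k] in
theorem primes_irreducible {f : k[X]} (hm : f.Monic) (hf : Irreducible f) : primes f = {f} := by
  ext R
  rw [mem_primes hf.ne_zero, Finset.mem_singleton]
  constructor
  · rintro ⟨h1, h2, h3⟩
    exact eq_of_monic_of_associated h1 hm (h2.associated_of_dvd hf h3)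
  · rintro rfl
    exact ⟨hm, hf, dvd_rfl⟩

/-- a factor prime to `ℓ` does not change the valuation -/
theorem val_lcm {ℓ : ℕ} (hℓ : ℓ.Prime) {n m : ℕ} (hn : 0 < n) (hm : 0 < m) (h : ¬ ℓ ∣ m) :
    padicValNat ℓ (Nat.lcm n m) = padicValNat ℓ n := by
  have hF : Fact ℓ.Prime := ⟨hℓ⟩
  obtain ⟨c, hc⟩ : n ∣ Nat.lcm n m := Nat.dvd_lcm_left n m
  have hl := Nat.lcm_pos hn hm
  have hc0 : c ≠ 0 := by
    rintro rfl
    omega
  have hco : ¬ ℓ ∣ c := by
    intro h'
    apply h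
    have h1 : Nat.gcd n m * Nat.lcm n m = n * m := Nat.gcd_mul_lcm n m
    rw [hc] at h1
    have h2 : Nat.gcd n m * c = m := by
      apply Nat.eq_of_mul_eq_mul_left hn
      rw [← h1]; ring
    rw [← h2]
    exact h'.mul_left _
  rw [hc, padicValNat.mul hn.ne' hc0, padicValNat.eq_zero_of_not_dvd hco, add_zero]

omit [Finite k] in
theorem bnd_irreducible {ℓ : ℕ} (hℓ : ℓ.Prime) {f D : k[X]} (hm : f.Monic) (hf : Irreducible f)
    (hd : ℓ ∣ f.natDegree + 1) :
    bnd ℓ f X D = 1 + ∑ P ∈ primes D, ((Nat.gcd P.natDegree f.natDegree : ℤ) - 1) *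
      (ℓ ^ padicValNat ℓ P.natDegree : ℤ) := by
  have hnd : ¬ ℓ ∣ f.natDegree := fun h =>
    hℓ.one_lt.ne' (Nat.dvd_one.1 ((Nat.dvd_add_right h).1 hd))
  have hpos : 0 < f.natDegree := hf.natDegree_pos
  unfold bnd
  rw [comp_X, primes_irreducible hm hf]
  simp only [Finset.sum_singleton]
  rw [padicValNat.eq_zero_of_not_dvd hnd, pow_zero, sub_self, ite_self, add_zero]
  have h1 : ∀ P ∈ primes D, ((Nat.gcd P.natDegree f.natDegree : ℤ) *
      (ℓ ^ padicValNat ℓ (Nat.lcm P.natDegree f.natDegree) : ℤ) -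
      (ℓ ^ padicValNat ℓ P.natDegree : ℤ)) = ((Nat.gcd P.natDegree f.natDegree : ℤ) - 1) *
      (ℓ ^ padicValNat ℓ P.natDegree : ℤ) := by
    intro P hP
    have hP0 : 0 < P.natDegree := by
      by_cases hD : D = 0
      · rw [hD] at hP
        unfold primes at hP
        simp at hP
      · exact ((mem_primes hD P).1 hP).2.1.natDegree_pos
    rw [val_lcm hℓ hP0 hpos hnd]
    ring
  rw [Finset.sum_congr rfl h1]
  ring

omit [Finite k] in
theorem bnd_prime {ℓ : ℕ} (hℓ : ℓ.Prime) {f D : k[X]} (hf : f ≠ 0) (hD : Irreducible D)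
    (hd : ℓ ∣ D.natDegree + 1)
    (hcop : ∀ R ∈ primes f, Nat.Coprime D.natDegree R.natDegree) : bnd ℓ f X D = 1 := by
  have hnd : ¬ ℓ ∣ D.natDegree := fun h =>
    hℓ.one_lt.ne' (Nat.dvd_one.1 ((Nat.dvd_add_right h).1 hd))
  have hpos : 0 < D.natDegree := hD.natDegree_pos
  have hu : IsUnit (C D.leadingCoeff⁻¹ : k[X]) :=
    isUnit_C.2 (isUnit_iff_ne_zero.2 (inv_ne_zero (leadingCoeff_ne_zero.2 hD.ne_zero)))
  have hass : Associated D (D * C D.leadingCoeff⁻¹) :=
    (associated_mul_unit_right D _ hu)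
  have hmon := monic_mul_leadingCoeff_inv hD.ne_zero
  have hpr : primes D = {D * C D.leadingCoeff⁻¹} := by
    ext R
    rw [mem_primes hD.ne_zero, Finset.mem_singleton]
    constructor
    · rintro ⟨h1, h2, h3⟩
      exact eq_of_monic_of_associated h1 hmon ((h2.associated_of_dvd hD h3).trans hass)
    · rintro rfl
      exact ⟨hmon, hass.irreducible hD, hass.symm.dvd⟩
  have hdeg : (D * C D.leadingCoeff⁻¹).natDegree = D.natDegree :=
    natDegree_mul_leadingCoeff_inv D hD.ne_zero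
  unfold bnd
  rw [comp_X, hpr, Finset.sum_singleton, if_pos (by rw [natDegree_X, add_comm]; exact hd), hdeg,
    padicValNat.eq_zero_of_not_dvd hnd, pow_zero]
  have h1 : ∑ R ∈ primes f, (Nat.gcd D.natDegree R.natDegree : ℤ) *
      (ℓ ^ padicValNat ℓ (Nat.lcm D.natDegree R.natDegree) : ℤ) =
      ∑ R ∈ primes f, (ℓ ^ padicValNat ℓ R.natDegree : ℤ) := by
    refine Finset.sum_congr rfl fun R hR => ?_
    have hR0 : 0 < R.natDegree := ((mem_primes hf R).1 hR).2.1.natDegree_pos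
    rw [Nat.lcm_comm, val_lcm hℓ hR0 hpos hnd, (hcop R hR).gcd_eq_one, Nat.cast_one, one_mul]
  rw [h1]
  ring

end

end Pool.Agent.TH639.SE
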