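import Pool.Agent.TH639.SE.Alg

/-!
The orders of vanishing of the twists of the Jacobians of `y ^ ℓ = D(t) (x - h(t)) f(x)`.
-/

set_option autoImplicit false
set_option maxHeartbeats 1000000

open PowerSeries

namespace Pool.Agent.TH639.SE

open Pool.Agent.W313.Hyp Pool.Agent.W343.BSD
open Pool.Agent.TH943.HJ (RF finRF fd1 fd2 finrank_RF finrank_two)
open Pool.Agent.TH943.LP (tw facs_unit)

section

variable {k : Type} [Field k] (ℓ : ℕ)

open Classical in
/-- The Euler factor at `t = ∞`. -/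
noncomputable def infT (f h D : Polynomial k) : PowerSeries ℤ :=
  if ℓ ∣ h.natDegree + D.natDegree then
    locL ℓ (Polynomial.C (-(h.leadingCoeff * D.leadingCoeff)) * f) 1 else 1

/-- the `L`-function -/
noncomputable def LL (f h D : Polynomial k) : PowerSeries ℤ :=
  LF ℓ f h D * locL ℓ D 1 * infT ℓ f h D

variable {ℓ} [Finite k]

/-- the product of the `L`-functions of the twists -/
theorem sup_LL (hℓ : ℓ.Prime) (hq : ((Nat.card k : ℕ) : ZMod ℓ) = 1) {e : k}
    (he : ¬ ∃ v : k, v ^ ℓ = e) (f h D : Polynomial k) :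
    Sup ℓ (∏ j ∈ Finset.range ℓ, LL ℓ f h (Polynomial.C (e ^ j) * D)) := by
  have he0 : e ≠ 0 := by
    rintro rfl
    exact he ⟨0, zero_pow hℓ.ne_zero⟩
  unfold LL
  rw [Finset.prod_mul_distrib, Finset.prod_mul_distrib]
  refine ((sup_LF hℓ hq he f h D).mul (sup_locL hℓ hq he D)).mul ?_
  unfold infT
  by_cases hd : ℓ ∣ h.natDegree + D.natDegree
  · refine (congrArg (Sup ℓ) (Finset.prod_congr rfl fun j _ => ?_)).mp (sup_locL hℓ hq he
      (Polynomial.C (-(h.leadingCoeff * D.leadingCoeff)) * f))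
    rw [Polynomial.natDegree_C_mul (pow_ne_zero j he0), if_pos hd, ← mul_assoc, ← Polynomial.C_mul,
      Polynomial.leadingCoeff_mul, Polynomial.leadingCoeff_C]
    congr 3
    ring
  · refine (congrArg (Sup ℓ) (Finset.prod_congr rfl fun j _ => ?_)).mp
      (Sup.prod (Finset.range ℓ) fun _ _ => Sup.one)
    rw [Polynomial.natDegree_C_mul (pow_ne_zero j he0), if_neg hd]

omit [Finite k] in
theorem isMu_Psi [Fact ℓ.Prime] (f : Polynomial k) {n : ℕ} (hn : 0 < n) :
    IsMu (Psi ℓ f n) (∑ R ∈ facs f, Nat.gcd n R.1.natDegree *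
      ℓ ^ padicValNat ℓ (Nat.lcm n R.1.natDegree)) :=
  IsMu.prod _ fun R _ => (IsMu.zf (Nat.lcm_pos hn (MI.deg_pos R))).pow _

omit [Finite k] in
theorem isMu_facs [Fact ℓ.Prime] (s : Finset (MI k)) :
    IsMu (∏ R ∈ s, (1 - X ^ R.1.natDegree) : PowerSeries (ZMod ℓ))
      (∑ R ∈ s, ℓ ^ padicValNat ℓ R.1.natDegree) :=
  IsMu.prod _ fun R _ => IsMu.zf (MI.deg_pos R)

open Classical in
/-- the identity modulo `ℓ` for the whole function -/
theorem identity_LL [Fact ℓ.Prime] (hq : ((Nat.card k : ℕ) : ZMod ℓ) = 1) {f h D : Polynomial k}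
    (hf : f ≠ 0) (hfh : f.comp h ≠ 0) (hh : h ≠ 0) (hD : D ≠ 0) :
    red ℓ (LL ℓ f h D) * ((∏ R ∈ facs f, (1 - X ^ R.1.natDegree)) *
      ((∏ P ∈ facs D, (1 - X ^ P.1.natDegree)) *
      (if ℓ ∣ h.natDegree + D.natDegree then
        ∏ R ∈ facs f, (1 - X ^ R.1.natDegree) else 1))) ^ (ℓ - 1) =
      (((∏ P ∈ facs (f.comp h) \ facs D, (1 - X ^ P.1.natDegree)) *
        ∏ P ∈ facs D, Psi ℓ f P.1.natDegree) *
      ((1 - X) * (if ℓ ∣ h.natDegree + D.natDegree then 1 - X else 1))) ^ (ℓ - 1) := by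
  have h1 := identity hq hf hfh hD
  have h2 : red ℓ (locL ℓ D 1) * (∏ P ∈ facs D, (1 - X ^ P.1.natDegree)) ^ (ℓ - 1) =
      (1 - X) ^ (ℓ - 1) := by
    have := locL_red hq hD one_pos
    simpa only [one_mul, pow_one] using this
  have h3 : red ℓ (infT ℓ f h D) *
      (if ℓ ∣ h.natDegree + D.natDegree then
        ∏ R ∈ facs f, (1 - X ^ R.1.natDegree) else 1) ^ (ℓ - 1) =
      (if ℓ ∣ h.natDegree + D.natDegree then 1 - X else 1) ^ (ℓ - 1) := by
    unfold infT
    split_ifs with ho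
    · have hc : -(h.leadingCoeff * D.leadingCoeff) ≠ 0 :=
        neg_ne_zero.2 (mul_ne_zero (Polynomial.leadingCoeff_ne_zero.2 hh)
          (Polynomial.leadingCoeff_ne_zero.2 hD))
      have := locL_red hq (g := Polynomial.C (-(h.leadingCoeff * D.leadingCoeff)) * f)
        (mul_ne_zero (Polynomial.C_ne_zero.2 hc) hf) one_pos
      rw [facs_unit hf hc] at this
      simpa only [one_mul, pow_one] using this
    · rw [map_one, one_mul]
  unfold LL
  rw [map_mul, map_mul, mul_pow, mul_pow, mul_pow, mul_pow (1 - X), ← h1, ← h2, ← h3]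
  ring

/-- the multiplicity on the left -/
noncomputable def cA (ℓ : ℕ) (f h D : Polynomial k) : ℕ :=
  ∑ R ∈ facs f, ℓ ^ padicValNat ℓ R.1.natDegree +
    (∑ P ∈ facs D, ℓ ^ padicValNat ℓ P.1.natDegree +
      (if ℓ ∣ h.natDegree + D.natDegree then ∑ R ∈ facs f, ℓ ^ padicValNat ℓ R.1.natDegree else 0))

open Classical in
/-- the multiplicity on the right -/
noncomputable def cB (ℓ : ℕ) (f h D : Polynomial k) : ℕ :=
  (∑ P ∈ facs (f.comp h) \ facs D, ℓ ^ padicValNat ℓ P.1.natDegree +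
    ∑ P ∈ facs D, ∑ R ∈ facs f, Nat.gcd P.1.natDegree R.1.natDegree *
      ℓ ^ padicValNat ℓ (Nat.lcm P.1.natDegree R.1.natDegree)) +
    (1 + (if ℓ ∣ h.natDegree + D.natDegree then 1 else 0))

theorem facs_C_mul {e : k} (he : e ≠ 0) {D : Polynomial k} (hD : D ≠ 0) :
    facs (Polynomial.C e * D) = facs D := facs_unit hD he

/-- **the bound for the sum of the orders** -/
theorem order_sum [hp : Fact ℓ.Prime] (hq : ((Nat.card k : ℕ) : ZMod ℓ) = 1) {e : k}
    (he : ¬ ∃ v : k, v ^ ℓ = e) {f h D : Polynomial k}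
    (hf : f ≠ 0) (hfh : f.comp h ≠ 0) (hh : h ≠ 0) (hD : D ≠ 0) (r : ℕ → ℕ)
    (hr : ∀ j, j < ℓ → ∃ G : Polynomial ℤ, LL ℓ f h (Polynomial.C (e ^ j) * D) =
      (((1 - Polynomial.C (Nat.card k : ℤ) * Polynomial.X) ^ (r j) * G : Polynomial ℤ) :
        PowerSeries ℤ)) :
    ∑ j ∈ Finset.range ℓ, r j + (ℓ - 1) * cA ℓ f h D ≤ (ℓ - 1) * cB ℓ f h D := by
  classical
  have he0 : e ≠ 0 := by
    rintro rfl
    exact he ⟨0, zero_pow hp.out.ne_zero⟩
  choose! G hG using hr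
  refine sum_bound (q := (Nat.card k : ℤ)) (by rw [Int.cast_natCast]; exact hq)
    (fun j => LL ℓ f h (Polynomial.C (e ^ j) * D)) r G
    (fun j hj => hG j (Finset.mem_range.1 hj)) (sup_LL hp.out hq he f h D)
    (A := (∏ R ∈ facs f, (1 - X ^ R.1.natDegree)) *
      ((∏ P ∈ facs D, (1 - X ^ P.1.natDegree)) *
      (if ℓ ∣ h.natDegree + D.natDegree then
        ∏ R ∈ facs f, (1 - X ^ R.1.natDegree) else 1)))
    (B := ((∏ P ∈ facs (f.comp h) \ facs D, (1 - X ^ P.1.natDegree)) *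
        ∏ P ∈ facs D, Psi ℓ f P.1.natDegree) *
      ((1 - X) * (if ℓ ∣ h.natDegree + D.natDegree then 1 - X else 1))) ?_ ?_ ?_
  · unfold cA
    refine (isMu_facs _).mul ((isMu_facs _).mul ?_)
    split_ifs
    · exact isMu_facs _
    · exact IsMu.one
  · unfold cB
    refine IsMu.mul ((isMu_facs _).mul (IsMu.prod _ fun P _ => isMu_Psi f (MI.deg_pos P)))
      (IsMu.oneX.mul ?_)
    split_ifs
    · exact IsMu.oneX
    · exact IsMu.one
  · intro j _
    have hc := pow_ne_zero j he0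
    have h1 := identity_LL hq hf hfh hh (mul_ne_zero (Polynomial.C_ne_zero.2 hc) hD)
    rwa [facs_C_mul hc hD, Polynomial.natDegree_C_mul hc] at h1

end

end Pool.Agent.TH639.SE
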