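import Pool.Agent.TH639.SE.Loc
import Pool.Agent.TH943.LP.Ord

/-!
The identity modulo `ℓ` for the `L`-function of the Jacobian of `y ^ ℓ = D(t) (x - h(t)) f(x)`.
-/

set_option autoImplicit false
set_option maxHeartbeats 1000000

open PowerSeries

namespace Pool.Agent.TH639.SE

open Pool.Agent.W313.Hyp Pool.Agent.W343.BSD
open Pool.Agent.TH943.HJ (RF finRF fd1 fd2 finrank_RF finrank_two)
open Pool.Agent.TH943.LP (tw hpt hpt_deg tw_ne dvd_tw hpt_dvd facs_tw map_ne deg_fac card_fac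
  exists_under under_unique prod_facs_map facs_unit)

section

variable {k : Type} [Field k] (ℓ : ℕ)

/-- The part of the `L`-function of the closed points of the affine plane with `D(t) ≠ 0`. -/
noncomputable def LF (f h D : Polynomial k) : PowerSeries ℤ :=
  eulerProd (fun z : (Σ P : {P : MI k // ¬ P.1 ∣ D}, MI (RF P.1)) =>
      z.1.1.1.natDegree * z.2.1.natDegree)
    (fun z => lf ℓ (tw f h D z.1.1) z.2.1 (z.1.1.1.natDegree * z.2.1.natDegree))

variable {ℓ} [Finite k]

omit [Finite k] in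
theorem card_RFl (hq : ((Nat.card k : ℕ) : ZMod ℓ) = 1) (P : MI k) :
    ((Nat.card (RF P) : ℕ) : ZMod ℓ) = 1 := by
  have := fd1 P
  rw [Module.natCard_eq_pow_finrank (K := k) (V := RF P)]
  push_cast
  rw [hq, one_pow]

theorem LF_eq (hℓ : 0 < ℓ) (f h D : Polynomial k) [DecidablePred fun P : MI k => ¬ P.1 ∣ D] :
    LF ℓ f h D = eulerProd (fun P : MI k => P.1.natDegree)
      (fun P => if ¬ P.1 ∣ D then locL ℓ (tw f h D P) P.1.natDegree else 1) := by
  have hfin : ∀ P : MI k, Finite (RF P) := finRF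
  unfold LF
  rw [eulerProd_sigma (ι := {P : MI k // ¬ P.1 ∣ D}) (κ := fun P => MI (RF P.1))
    (d := fun P => P.1.1.natDegree) (e := fun P Q => Q.1.natDegree)
    (fun n => Set.Finite.of_finite_image (f := fun i : {P : MI k // ¬ P.1 ∣ D} => i.1)
      ((finite_deg_le (F := k) n).subset (by rintro _ ⟨i, hi, rfl⟩; exact hi))
      (Set.injOn_of_injective Subtype.val_injective))
    (fun P => MI.deg_pos P.1) (fun P n => finite_deg_le n) (fun P Q => MI.deg_pos Q) _
    (fun p => lf_mod hℓ _ _ _)]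
  exact eulerProd_subtype (fun P : MI k => ¬ P.1 ∣ D) (d := fun P => P.1.natDegree)
    (fun n => finite_deg_le (F := k) n) (f := fun P => locL ℓ (tw f h D P) P.1.natDegree)
    (fun P _ => locL_mod_one hℓ (tw f h D P) (MI.deg_pos P))

variable (ℓ) in
/-- the contribution of the roots of `f` over the residue field of degree `n` -/
noncomputable def Psi (f : Polynomial k) (n : ℕ) : PowerSeries (ZMod ℓ) :=
  ∏ R ∈ facs f, (1 - X ^ Nat.lcm n R.1.natDegree) ^ (Nat.gcd n R.1.natDegree)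

theorem eulerProd_const (hq : ((Nat.card k : ℕ) : ZMod ℓ) = 1) (R : MI k) :
    eulerProd (fun P : MI k => P.1.natDegree) (fun P =>
      (1 - PowerSeries.X ^ Nat.lcm P.1.natDegree R.1.natDegree : PowerSeries (ZMod ℓ)) ^
        (Nat.gcd P.1.natDegree R.1.natDegree)) = 1 - PowerSeries.X ^ R.1.natDegree := by
  have hfin1 : Finite (RF R) := finRF R
  have h1 : (fun P : MI k =>
      (1 - PowerSeries.X ^ Nat.lcm P.1.natDegree R.1.natDegree : PowerSeries (ZMod ℓ)) ^
        (Nat.gcd P.1.natDegree R.1.natDegree)) =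
      fun P : MI k => ∏ Q ∈ facs (P.1.map (algebraMap k (RF R))),
        (1 - PowerSeries.X ^ (R.1.natDegree * Q.1.natDegree) : PowerSeries (ZMod ℓ)) := by
    funext P
    rw [Nat.gcd_comm, ← card_fac R P, ← Finset.prod_const]
    refine Finset.prod_congr rfl fun Q hQ => ?_
    rw [deg_fac Q ((mem_facs (map_ne P.2.1.ne_zero R) Q).1 hQ), Nat.lcm_comm]
  rw [h1, eulerProd_fiber (d' := fun Q : MI (RF R) => R.1.natDegree * Q.1.natDegree)
    (fun n => finite_deg_le (F := k) n) (finite_d (MI.deg_pos R))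
    (f' := fun Q => 1 - PowerSeries.X ^ (R.1.natDegree * Q.1.natDegree))
    (fun Q => one_sub_mod le_rfl) (fun P => facs (P.1.map (algebraMap k (RF R))))
    (fun Q => by
      obtain ⟨P, hP⟩ := exists_under Q
      exact ⟨P, (mem_facs (map_ne P.2.1.ne_zero R) Q).2 hP⟩)
    (fun P P' Q h h' => under_unique Q P P' ((mem_facs (map_ne P.2.1.ne_zero R) Q).1 h)
      ((mem_facs (map_ne P'.2.1.ne_zero R) Q).1 h'))
    (fun P Q hQ => by
      rw [deg_fac Q ((mem_facs (map_ne P.2.1.ne_zero R) Q).1 hQ)]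
      exact Nat.le_of_dvd (Nat.lcm_pos (MI.deg_pos R) (MI.deg_pos P)) (Nat.dvd_lcm_right _ _))]
  exact zeta_line (card_RFl hq R) (MI.deg_pos R)

omit [Finite k] in
theorem Psi_mod (f : Polynomial k) {n : ℕ} (hn : 0 < n) :
    (X : PowerSeries (ZMod ℓ)) ^ n ∣ Psi ℓ f n - 1 := by
  have h := prod_congr_mod (facs f)
    (fun R => ((1 - X ^ Nat.lcm n R.1.natDegree) ^ (Nat.gcd n R.1.natDegree) :
      PowerSeries (ZMod ℓ))) (fun _ => 1) n (fun R _ => pow_one_mod (one_sub_mod
        (Nat.le_of_dvd (Nat.lcm_pos hn (MI.deg_pos R)) (Nat.dvd_lcm_left _ _))) _)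
  rwa [Finset.prod_const_one] at h

theorem eulerProd_Psi (hq : ((Nat.card k : ℕ) : ZMod ℓ) = 1) (f : Polynomial k) :
    eulerProd (fun P : MI k => P.1.natDegree) (fun P => Psi ℓ f P.1.natDegree) =
      ∏ R ∈ facs f, (1 - X ^ R.1.natDegree) := by
  unfold Psi
  rw [eulerProd_prod (fun n => finite_deg_le (F := k) n) (facs f) _ (fun R P => ?_)]
  · exact Finset.prod_congr rfl fun R _ => eulerProd_const hq R
  · exact pow_one_mod (one_sub_mod
        (Nat.le_of_dvd (Nat.lcm_pos (MI.deg_pos P) (MI.deg_pos R)) (Nat.dvd_lcm_left _ _))) _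

open Classical in
/-- the identity modulo `ℓ` -/
theorem identity [Fact ℓ.Prime] (hq : ((Nat.card k : ℕ) : ZMod ℓ) = 1) {f h D : Polynomial k}
    (hf : f ≠ 0) (hfh : f.comp h ≠ 0) (hD : D ≠ 0) :
    red ℓ (LF ℓ f h D) * (∏ R ∈ facs f, (1 - X ^ R.1.natDegree)) ^ (ℓ - 1) =
      ((∏ P ∈ facs (f.comp h) \ facs D, (1 - X ^ P.1.natDegree)) *
        ∏ P ∈ facs D, Psi ℓ f P.1.natDegree) ^ (ℓ - 1) := by
  have hℓ : 0 < ℓ := (Fact.out : ℓ.Prime).pos
  have hfin : ∀ P : MI k, Finite (RF P) := finRF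
  have hfd := fun n => finite_deg_le (F := k) n
  set W : MI k → PowerSeries (ZMod ℓ) :=
    fun P => red ℓ (if ¬ P.1 ∣ D then locL ℓ (tw f h D P) P.1.natDegree else 1) with hW
  have hΦ0 : ∀ P : MI k, (X : PowerSeries (ZMod ℓ)) ^ P.1.natDegree ∣ Psi ℓ f P.1.natDegree - 1 :=
    fun P => Psi_mod f (MI.deg_pos P)
  have hΦ1 : ∀ P : MI k, (X : PowerSeries (ZMod ℓ)) ^ P.1.natDegree ∣
      Psi ℓ f P.1.natDegree ^ (ℓ - 1) - 1 := fun P => pow_one_mod (hΦ0 P) _
  have hloc : ∀ P : MI k, (X : PowerSeries ℤ) ^ P.1.natDegree ∣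
      (if ¬ P.1 ∣ D then locL ℓ (tw f h D P) P.1.natDegree else 1) - 1 := by
    intro P
    split_ifs with hv
    · rw [sub_self]; exact dvd_zero _
    · exact locL_mod_one hℓ (tw f h D P) (MI.deg_pos P)
  have hW1 : ∀ P : MI k, (X : PowerSeries (ZMod ℓ)) ^ P.1.natDegree ∣ W P - 1 := by
    intro P
    have h3 := map_dvd (red ℓ) (hloc P)
    rwa [map_sub, map_one, map_pow, PowerSeries.map_X] at h3
  have hWS : ∀ P ∈ facs D, W P = 1 := by
    intro P hP
    rw [mem_facs hD] at hP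
    show red ℓ (if ¬ P.1 ∣ D then locL ℓ (tw f h D P) P.1.natDegree else 1) = 1
    rw [if_neg (not_not.2 hP), map_one]
  -- the local computation
  have hlocal : ∀ P, P ∉ facs D → Psi ℓ f P.1.natDegree ^ (ℓ - 1) * W P =
      if P ∈ facs (f.comp h) then (1 - X ^ P.1.natDegree) ^ (ℓ - 1) else 1 := by
    intro P hP
    rw [mem_facs hD] at hP
    have h1 := locL_red (card_RFl hq P) (tw_ne (h := h) hf hP) (MI.deg_pos P)
    have h2 : W P = red ℓ (locL ℓ (tw f h D P) P.1.natDegree) := by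
      show red ℓ (if ¬ P.1 ∣ D then locL ℓ (tw f h D P) P.1.natDegree else 1) = _
      rw [if_pos hP]
    have h3 : Psi ℓ f P.1.natDegree = ∏ Q ∈ facs (f.map (algebraMap k (RF P))),
        (1 - X ^ (P.1.natDegree * Q.1.natDegree) : PowerSeries (ZMod ℓ)) :=
      (prod_facs_map hf P (fun n => (1 - X ^ n : PowerSeries (ZMod ℓ)))).symm
    rw [facs_tw hf hP, ← h2] at h1
    rw [h3]
    split_ifs with hPe
    · rw [mem_facs hfh] at hPe
      have h4 : hpt h P ∈ facs (f.map (algebraMap k (RF P))) :=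
        (mem_facs (map_ne hf P) _).2 (hpt_dvd.2 hPe)
      rw [Finset.insert_eq_of_mem h4] at h1
      rw [mul_comm, h1]
    · rw [mem_facs hfh] at hPe
      have h4 : hpt h P ∉ facs (f.map (algebraMap k (RF P))) := fun h' =>
        hPe (hpt_dvd.1 ((mem_facs (map_ne hf P) _).1 h'))
      rw [Finset.prod_insert h4, hpt_deg, mul_one, mul_pow] at h1
      apply mul_left_cancel₀ (pow_ne_zero (ℓ - 1) (one_sub_ne (R := ZMod ℓ) (MI.deg_pos P)))
      rw [mul_one]
      linear_combination h1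
  have hLS : red ℓ (LF ℓ f h D) = eulerProd (fun P : MI k => P.1.natDegree) W := by
    rw [LF_eq hℓ f h D, map_eulerProd hfd]
  have key := fin_factor' (F := fun P => Psi ℓ f P.1.natDegree ^ (ℓ - 1) * W P)
    (W := fun _ => (1 : PowerSeries (ZMod ℓ))) hfd
    (fun P => one_mod_mul (hΦ1 P) (hW1 P)) (fun P => by rw [sub_self]; exact dvd_zero _)
    ((facs (f.comp h) \ facs D) ∪ facs D) (fun P hP => by
      rw [Finset.mem_union, Finset.mem_sdiff, not_or, not_and] at hP
      rw [hlocal P hP.2, if_neg (fun h' => hP.1 h' hP.2)])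
  rw [Finset.prod_const_one, mul_one] at key
  have hone : eulerProd (fun P : MI k => P.1.natDegree)
      (fun _ => (1 : PowerSeries (ZMod ℓ))) = 1 := eulerProd_one
  rw [hone, one_mul, eulerProd_mul hfd hΦ1 hW1, eulerProd_pow hfd hΦ0, eulerProd_Psi hq f,
    ← hLS] at key
  rw [mul_comm, key, Finset.prod_union Finset.sdiff_disjoint, mul_pow]
  congr 1
  · rw [← Finset.prod_pow]
    refine Finset.prod_congr rfl fun P hP => ?_
    rw [Finset.mem_sdiff] at hP
    rw [hlocal P hP.2, if_pos hP.1]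
  · rw [← Finset.prod_pow]
    refine Finset.prod_congr rfl fun P hP => ?_
    rw [hWS P hP, mul_one]

end

end Pool.Agent.TH639.SE
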