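import Pool.Agent.TH943.LP.Fac
import Pool.Agent.W309.T3.Eul

/-!
The Euler factors of the curves `y ^ ℓ = g(x)` over finite fields, modulo `ℓ`.
-/

set_option autoImplicit false
set_option maxHeartbeats 1000000

open PowerSeries

namespace Pool.Agent.TH639.SE

open Pool.Agent.W313.Hyp Pool.Agent.W343.BSD Pool.Agent.TH943.HJ

section loc

variable {F : Type} [Field F]

open Classical in
/-- the Euler factor of the Jacobian of `y ^ ℓ = g(x)` at the closed point `Q` of degree `n` -/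
noncomputable def lf (ℓ : ℕ) (g Q : Polynomial F) (n : ℕ) : PowerSeries ℤ :=
  if Q ∣ g then 1 else if ∃ s : Polynomial F, Q ∣ g - s ^ ℓ then (1 - X ^ n) ^ (ℓ - 1)
  else ∑ i ∈ Finset.range ℓ, (X ^ n) ^ i

theorem lf_of_dvd {ℓ : ℕ} {g Q : Polynomial F} {n : ℕ} (h : Q ∣ g) : lf ℓ g Q n = 1 := by
  unfold lf
  rw [if_pos h]

theorem pow_one_mod {R : Type*} [CommRing R] {a : PowerSeries R} {n : ℕ}
    (h : (X : PowerSeries R) ^ n ∣ a - 1) (m : ℕ) : (X : PowerSeries R) ^ n ∣ a ^ m - 1 :=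
  h.trans (sub_one_dvd_pow_sub_one a m)

theorem one_sub_mod {R : Type*} [CommRing R] {n m : ℕ} (h : m ≤ n) :
    (X : PowerSeries R) ^ m ∣ (1 - X ^ n) - 1 := by
  rw [sub_right_comm, sub_self, zero_sub, dvd_neg]
  exact pow_dvd_pow _ h

theorem lf_mod {ℓ : ℕ} (hℓ : 0 < ℓ) (g Q : Polynomial F) (n : ℕ) :
    (X : PowerSeries ℤ) ^ n ∣ lf ℓ g Q n - 1 := by
  unfold lf
  split_ifs
  · rw [sub_self]; exact dvd_zero _
  · exact pow_one_mod (one_sub_mod le_rfl) _
  · obtain ⟨m, rfl⟩ : ∃ m, ℓ = m + 1 := ⟨ℓ - 1, by omega⟩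
    rw [Finset.sum_range_succ', pow_zero, add_sub_cancel_right]
    refine Finset.dvd_sum fun i _ => ?_
    rw [pow_succ]
    exact dvd_mul_left _ _

variable (ℓ : ℕ)

/-- reduction modulo `ℓ` -/
noncomputable abbrev red : PowerSeries ℤ →+* PowerSeries (ZMod ℓ) :=
  PowerSeries.map (Int.castRingHom (ZMod ℓ))

theorem one_sub_ne {R : Type*} [CommRing R] [Nontrivial R] {n : ℕ} (hn : 0 < n) :
    (1 - X ^ n : PowerSeries R) ≠ 0 := by
  intro h
  have h1 := congrArg (constantCoeff (R := R)) h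
  rw [map_sub, map_one, map_pow, constantCoeff_X, zero_pow hn.ne', sub_zero, map_zero] at h1
  exact one_ne_zero h1

variable {ℓ}

theorem charP_series [Fact ℓ.Prime] : CharP (PowerSeries (ZMod ℓ)) ℓ :=
  charP_of_injective_ringHom (f := PowerSeries.C (R := ZMod ℓ)) PowerSeries.C_injective ℓ

theorem one_sub_pow [Fact ℓ.Prime] (y : PowerSeries (ZMod ℓ)) : 1 - y ^ ℓ = (1 - y) ^ ℓ := by
  have := charP_series (ℓ := ℓ)
  rw [sub_pow_char, one_pow]

theorem red_lf [hp : Fact ℓ.Prime] {g Q : Polynomial F} {n : ℕ} (hn : 0 < n) (h : ¬ Q ∣ g) :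
    red ℓ (lf ℓ g Q n) = (1 - X ^ n) ^ (ℓ - 1) := by
  unfold lf
  rw [if_neg h]
  split_ifs
  · rw [map_pow, map_sub, map_one, map_pow, PowerSeries.map_X]
  · have h1 : red ℓ (∑ i ∈ Finset.range ℓ, (X ^ n) ^ i) =
        ∑ i ∈ Finset.range ℓ, (X ^ n : PowerSeries (ZMod ℓ)) ^ i := by
      rw [map_sum]
      refine Finset.sum_congr rfl fun i _ => ?_
      rw [map_pow, map_pow, PowerSeries.map_X]
    rw [h1]
    apply mul_left_cancel₀ (one_sub_ne (R := ZMod ℓ) hn)
    rw [mul_neg_geom_sum, one_sub_pow, ← pow_succ', Nat.sub_add_cancel hp.out.one_lt.le]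

variable (ℓ)

/-- the product over the closed points of the line -/
noncomputable def locL (g : Polynomial F) (d : ℕ) : PowerSeries ℤ :=
  eulerProd (fun P : MI F => d * P.1.natDegree) (fun P => lf ℓ g P.1 (d * P.1.natDegree))

variable {ℓ}

theorem locL_mod_one [Finite F] (hℓ : 0 < ℓ) (g : Polynomial F) {d : ℕ} (hd : 0 < d) :
    (X : PowerSeries ℤ) ^ d ∣ locL ℓ g d - 1 :=
  euler_one_mod (finite_d hd) (fun P => lf_mod hℓ g P.1 _) d fun P =>
    (pow_dvd_pow _ (Nat.le_mul_of_pos_right _ (MI.deg_pos P))).trans (lf_mod hℓ g P.1 _)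

theorem eulerProd_pow {ι R : Type*} [CommRing R] {d : ι → ℕ} (hfin : ∀ n, {i | d i ≤ n}.Finite)
    {f : ι → PowerSeries R} (hf : ∀ i, (X : PowerSeries R) ^ d i ∣ f i - 1) (m : ℕ) :
    eulerProd d (fun i => f i ^ m) = (eulerProd d f) ^ m := by
  have h := eulerProd_prod hfin (Finset.range m) (fun _ => f) (fun _ i => hf i)
  simpa only [Finset.prod_const, Finset.card_range] using h

/-- the product of all `1 - X ^ (d deg P)` modulo `ℓ` -/
theorem zeta_line [Finite F] (hF : ((Nat.card F : ℕ) : ZMod ℓ) = 1) {d : ℕ} (hd : 0 < d) :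
    eulerProd (fun P : MI F => d * P.1.natDegree)
      (fun P => (1 - X ^ (d * P.1.natDegree) : PowerSeries (ZMod ℓ))) = 1 - X ^ d := by
  have h6 := euler_irr (F := F) (ZMod ℓ)
  have h7 := expand_eulerProd (R := ZMod ℓ) (d := fun P : MI F => P.1.natDegree)
    (fun n => finite_deg_le (F := F) n) hd.ne' (f := fun P => 1 - X ^ P.1.natDegree)
    (fun P => one_sub_mod le_rfl)
  rw [h6, hF] at h7
  have h8 : (fun P : MI F => (1 - X ^ (d * P.1.natDegree) : PowerSeries (ZMod ℓ))) =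
      fun P : MI F => expand d hd.ne' (1 - X ^ P.1.natDegree) := by
    funext P
    rw [map_sub, map_one, map_pow, expand_X, ← pow_mul]
  rw [h8, ← h7, PowerSeries.C.map_one, one_mul, map_sub, map_one, expand_X]

/-- the local identity -/
theorem locL_red [Fact ℓ.Prime] [Finite F] (hF : ((Nat.card F : ℕ) : ZMod ℓ) = 1)
    {g : Polynomial F} (h0 : g ≠ 0) {d : ℕ} (hd : 0 < d) :
    red ℓ (locL ℓ g d) * (∏ P ∈ facs g, (1 - X ^ (d * P.1.natDegree))) ^ (ℓ - 1) =
      (1 - X ^ d) ^ (ℓ - 1) := by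
  have hℓ : 0 < ℓ := (Fact.out : ℓ.Prime).pos
  have hpos : ∀ P : MI F, 0 < d * P.1.natDegree := fun P => Nat.mul_pos hd (MI.deg_pos P)
  have h1 : ∀ P : MI F, (X : PowerSeries (ZMod ℓ)) ^ (d * P.1.natDegree) ∣
      (1 - X ^ (d * P.1.natDegree)) - 1 := fun P => one_sub_mod le_rfl
  have h2 : ∀ P : MI F, (X : PowerSeries (ZMod ℓ)) ^ (d * P.1.natDegree) ∣
      red ℓ (lf ℓ g P.1 (d * P.1.natDegree)) - 1 := fun P => by
    have h3 := map_dvd (red ℓ) (lf_mod hℓ g P.1 (d * P.1.natDegree))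
    rwa [map_sub, map_one, map_pow, PowerSeries.map_X] at h3
  have key := fin_factor' (finite_d hd)
    (F := fun P : MI F => (1 - X ^ (d * P.1.natDegree) : PowerSeries (ZMod ℓ)) ^ (ℓ - 1))
    (fun P => pow_one_mod (h1 P) _) h2 (facs g) (fun P hP => by
      rw [red_lf (hpos P) (fun hPh => hP ((mem_facs h0 P).2 hPh))])
  have h4 : ∏ P ∈ facs g, red ℓ (lf ℓ g P.1 (d * P.1.natDegree)) = 1 :=
    Finset.prod_eq_one fun P hP => by
      rw [lf_of_dvd ((mem_facs h0 P).1 hP), map_one]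
  rw [h4, mul_one, eulerProd_pow (finite_d hd) h1, zeta_line hF hd, Finset.prod_pow] at key
  have h5 : red ℓ (locL ℓ g d) = eulerProd (fun P : MI F => d * P.1.natDegree)
      (fun P => red ℓ (lf ℓ g P.1 (d * P.1.natDegree))) := by
    unfold locL
    exact map_eulerProd (finite_d hd) _
  rw [h5, ← key]

end loc

end Pool.Agent.TH639.SE
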