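import Pool.Agent.TH639.SE.Glob

/-!
The product of the `L`-functions of the twists by the powers of a constant is a function of `T ^ ℓ`.
-/

set_option autoImplicit false
set_option maxHeartbeats 1000000

open PowerSeries

namespace Pool.Agent.TH639.SE

open Pool.Agent.W313.Hyp Pool.Agent.W343.BSD
open Pool.Agent.TH943.HJ (RF finRF fd1 fd2 finrank_RF finrank_two)
open Pool.Agent.TH943.LP (tw)

section sup

/-- only exponents divisible by `ℓ` occur -/
def Sup (ℓ : ℕ) (g : PowerSeries ℤ) : Prop := ∀ n, ¬ ℓ ∣ n → coeff n g = 0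

variable {ℓ : ℕ}

theorem Sup.one : Sup ℓ 1 := by
  intro n hn
  rw [coeff_one, if_neg]
  rintro rfl
  exact hn (dvd_zero ℓ)

theorem Sup.mul {g h : PowerSeries ℤ} (hg : Sup ℓ g) (hh : Sup ℓ h) : Sup ℓ (g * h) := by
  intro n hn
  rw [coeff_mul]
  refine Finset.sum_eq_zero fun p hp => ?_
  replace hp := Finset.HasAntidiagonal.mem_antidiagonal.1 hp
  by_cases h1 : ℓ ∣ p.1
  · have h2 : ¬ ℓ ∣ p.2 := fun h2 => hn (by rw [← hp]; exact dvd_add h1 h2)
    rw [hh _ h2, mul_zero]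
  · rw [hg _ h1, zero_mul]

theorem Sup.sub {g h : PowerSeries ℤ} (hg : Sup ℓ g) (hh : Sup ℓ h) : Sup ℓ (g - h) := by
  intro n hn
  rw [map_sub, hg n hn, hh n hn, sub_zero]

theorem Sup.pow {g : PowerSeries ℤ} (hg : Sup ℓ g) (m : ℕ) : Sup ℓ (g ^ m) := by
  induction m with
  | zero => rw [pow_zero]; exact Sup.one
  | succ m ih => rw [pow_succ]; exact ih.mul hg

theorem Sup.X {m : ℕ} (hm : ℓ ∣ m) : Sup ℓ (PowerSeries.X ^ m) := by
  intro n hn
  rw [coeff_X_pow, if_neg]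
  rintro rfl
  exact hn hm

theorem Sup.prod {ι : Type*} (s : Finset ι) {f : ι → PowerSeries ℤ} (h : ∀ i ∈ s, Sup ℓ (f i)) :
    Sup ℓ (∏ i ∈ s, f i) := by
  classical
  induction s using Finset.induction_on with
  | empty => exact Sup.one
  | insert i s hi ih =>
    rw [Finset.prod_insert hi]
    exact (h i (Finset.mem_insert_self i s)).mul
      (ih fun j hj => h j (Finset.mem_insert_of_mem hj))

theorem Sup.sum {ι : Type*} (s : Finset ι) {f : ι → PowerSeries ℤ} (h : ∀ i ∈ s, Sup ℓ (f i)) :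
    Sup ℓ (∑ i ∈ s, f i) := by
  intro n hn
  rw [map_sum]
  exact Finset.sum_eq_zero fun i hi => h i hi n hn

theorem Sup.eulerProd {ι : Type*} {d : ι → ℕ} (hfin : ∀ n, {i | d i ≤ n}.Finite)
    {f : ι → PowerSeries ℤ} (h : ∀ i, Sup ℓ (f i)) : Sup ℓ (eulerProd d f) := by
  intro n hn
  rw [coeff_eulerProd hfin]
  exact Sup.prod _ (fun i _ => h i) n hn

end sup

section field

variable {E : Type} [Field E]

open Classical in
/-- the Euler factor in terms of the residue class -/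
noncomputable def lfe (ℓ : ℕ) (u : E) (n : ℕ) : PowerSeries ℤ :=
  if u = 0 then 1 else if ∃ v : E, v ^ ℓ = u then (1 - X ^ n) ^ (ℓ - 1)
  else ∑ i ∈ Finset.range ℓ, (X ^ n) ^ i

theorem lf_eq_lfe {F : Type} [Field F] (Q : MI F) (ℓ : ℕ) (g : Polynomial F) (n : ℕ)
    [Fact (Irreducible Q.1)] :
    lf ℓ g Q.1 n = lfe ℓ (AdjoinRoot.mk Q.1 g) n := by
  unfold lf lfe
  have h1 : Q.1 ∣ g ↔ AdjoinRoot.mk Q.1 g = 0 := AdjoinRoot.mk_eq_zero.symm
  have h2 : (∃ s : Polynomial F, Q.1 ∣ g - s ^ ℓ) ↔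
      ∃ v : AdjoinRoot Q.1, v ^ ℓ = AdjoinRoot.mk Q.1 g := by
    constructor
    · rintro ⟨s, hs⟩
      refine ⟨AdjoinRoot.mk Q.1 s, ?_⟩
      rw [← AdjoinRoot.mk_eq_zero, map_sub, map_pow, sub_eq_zero] at hs
      exact hs.symm
    · rintro ⟨v, hv⟩
      obtain ⟨s, rfl⟩ := AdjoinRoot.mk_surjective v
      refine ⟨s, ?_⟩
      rw [← AdjoinRoot.mk_eq_zero, map_sub, map_pow, hv, sub_self]
  by_cases c1 : Q.1 ∣ g
  · rw [if_pos c1, if_pos (h1.1 c1)]
  · rw [if_neg c1, if_neg (fun h => c1 (h1.2 h))]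
    by_cases c2 : ∃ s : Polynomial F, Q.1 ∣ g - s ^ ℓ
    · rw [if_pos c2, if_pos (h2.1 c2)]
    · rw [if_neg c2, if_neg (fun h => c2 (h2.2 h))]

/-- the `ℓ`-th powers in a finite field -/
theorem isPow_iff [Finite E] {ℓ : ℕ} (hℓ : ℓ.Prime) (hd : ℓ ∣ Nat.card E - 1) {u : E}
    (hu : u ≠ 0) : (∃ v : E, v ^ ℓ = u) ↔ u ^ ((Nat.card E - 1) / ℓ) = 1 := by
  have := Fintype.ofFinite E
  obtain ⟨r, hr⟩ := hd
  have hr' : (Nat.card E - 1) / ℓ = r := by rw [hr, Nat.mul_div_cancel_left _ hℓ.pos]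
  rw [hr']
  have hcu : Nat.card Eˣ = Nat.card E - 1 := Nat.card_units E
  have hpos : 0 < Nat.card E - 1 := by
    rw [← hcu]; exact Nat.card_pos
  have hr0 : 0 < r := by
    rcases Nat.eq_zero_or_pos r with h0 | h0
    · rw [h0, mul_zero] at hr; omega
    · exact h0
  constructor
  · rintro ⟨v, rfl⟩
    rw [← pow_mul, ← hr, Nat.card_eq_fintype_card]
    exact FiniteField.pow_card_sub_one_eq_one v (fun h => hu (by rw [h, zero_pow hℓ.ne_zero]))
  · intro h
    obtain ⟨g, hg⟩ := IsCyclic.exists_generator (α := Eˣ)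
    have hord : orderOf g = Nat.card E - 1 := by
      rw [orderOf_eq_card_of_forall_mem_zpowers hg, hcu]
    obtain ⟨j, hj⟩ := mem_powers_iff_mem_zpowers.2 (hg (Units.mk0 u hu))
    have hj' : g ^ j = Units.mk0 u hu := hj
    have h1 : g ^ (j * r) = 1 := by
      rw [pow_mul, hj']
      apply Units.ext
      rw [Units.val_pow_eq_pow_val, Units.val_mk0, h, Units.val_one]
    have h2 := orderOf_dvd_of_pow_eq_one h1
    rw [hord, hr] at h2
    have h3 : ℓ ∣ j := Nat.dvd_of_mul_dvd_mul_right hr0 h2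
    obtain ⟨i, hi⟩ := h3
    refine ⟨((g ^ i : Eˣ) : E), ?_⟩
    rw [← Units.val_pow_eq_pow_val, ← pow_mul, mul_comm i ℓ, ← hi, hj', Units.val_mk0]

/-- the `ℓ`-th power residue symbol of a constant in an extension -/
theorem symbol_const {k : Type} [Field k] [Finite k] [Finite E] [Algebra k E] {ℓ : ℕ}
    (hℓ : ℓ.Prime) (hq : ((Nat.card k : ℕ) : ZMod ℓ) = 1) {e : k} (he : ¬ ∃ v : k, v ^ ℓ = e) :
    (ℓ ∣ Nat.card E - 1) ∧
    (ℓ ∣ Module.finrank k E → (algebraMap k E e) ^ ((Nat.card E - 1) / ℓ) = 1) ∧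
    (¬ ℓ ∣ Module.finrank k E → IsPrimitiveRoot ((algebraMap k E e) ^ ((Nat.card E - 1) / ℓ)) ℓ) := by
  have := Fintype.ofFinite k
  have := Fintype.ofFinite E
  have hFℓ : Fact ℓ.Prime := ⟨hℓ⟩
  have he0 : e ≠ 0 := by
    rintro rfl
    exact he ⟨0, zero_pow hℓ.ne_zero⟩
  have hk1 : 1 < Nat.card k := by
    rw [Nat.card_eq_fintype_card]; exact Fintype.one_lt_card
  have hdk : ℓ ∣ Nat.card k - 1 := by
    rw [← ZMod.natCast_eq_zero_iff, Nat.cast_sub hk1.le, hq, Nat.cast_one, sub_self]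
  obtain ⟨m, hm⟩ := hdk
  set N := Module.finrank k E with hN
  set S := ∑ i ∈ Finset.range N, Nat.card k ^ i with hS
  have hcard : Nat.card E - 1 = ℓ * (m * S) := by
    have h1 : Nat.card E = Nat.card k ^ N := by
      have hfd : Module.Finite k E := inferInstance
      exact Module.natCard_eq_pow_finrank
    have h2 := geom_sum_mul_of_one_le hk1.le N
    rw [h1, ← h2, hm, ← hS]
    ring
  have hdiv : (Nat.card E - 1) / ℓ = m * S := by
    rw [hcard, Nat.mul_div_cancel_left _ hℓ.pos]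
  have hSN : (S : ZMod ℓ) = N := by
    rw [hS]
    push_cast
    rw [hq]
    simp
  have hw : (algebraMap k E e) ^ ((Nat.card E - 1) / ℓ) = (algebraMap k E (e ^ m)) ^ S := by
    rw [hdiv, pow_mul, map_pow]
  have hm' : (Nat.card k - 1) / ℓ = m := by rw [hm, Nat.mul_div_cancel_left _ hℓ.pos]
  have hne : e ^ m ≠ 1 := by
    intro h
    apply he
    rw [isPow_iff hℓ ⟨m, hm⟩ he0, hm']
    exact h
  have hpow : (e ^ m) ^ ℓ = 1 := by
    rw [← pow_mul, mul_comm m ℓ, ← hm, Nat.card_eq_fintype_card]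
    exact FiniteField.pow_card_sub_one_eq_one e he0
  refine ⟨⟨_, hcard⟩, ?_, ?_⟩
  · intro hd
    have h1 : ℓ ∣ S := by
      rw [← ZMod.natCast_eq_zero_iff, hSN, ZMod.natCast_eq_zero_iff]
      exact hd
    obtain ⟨t, ht⟩ := h1
    rw [hw, ← map_pow, ht, pow_mul, hpow, one_pow, map_one]
  · intro hd
    have h1 : ¬ ℓ ∣ S := by
      rw [← ZMod.natCast_eq_zero_iff, hSN, ZMod.natCast_eq_zero_iff]
      exact hd
    have h2 : (algebraMap k E e) ^ ((Nat.card E - 1) / ℓ) ≠ 1 := by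
      intro h
      rw [hw, ← map_pow, ← map_one (algebraMap k E)] at h
      have h3 := (algebraMap k E).injective h
      have h4 := orderOf_dvd_of_pow_eq_one h3
      rw [orderOf_eq_prime hpow hne] at h4
      exact h1 h4
    have h3 : ((algebraMap k E e) ^ ((Nat.card E - 1) / ℓ)) ^ ℓ = 1 := by
      rw [hw, ← pow_mul, mul_comm S ℓ, pow_mul, ← map_pow, hpow, map_one, one_pow]
    have h4 := IsPrimitiveRoot.orderOf ((algebraMap k E e) ^ ((Nat.card E - 1) / ℓ))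
    rwa [orderOf_eq_prime h3 h2] at h4

/-- the product of the Euler factors of the twists -/
theorem prod_lfe {k : Type} [Field k] [Finite k] [Finite E] [Algebra k E] {ℓ : ℕ}
    (hℓ : ℓ.Prime) (hq : ((Nat.card k : ℕ) : ZMod ℓ) = 1) {e : k} (he : ¬ ∃ v : k, v ^ ℓ = e)
    (u : E) {N : ℕ} (hN : Module.finrank k E = N) :
    Sup ℓ (∏ j ∈ Finset.range ℓ, lfe ℓ (algebraMap k E (e ^ j) * u) N) := by
  classical
  obtain ⟨hdE, hin, hout⟩ := symbol_const (E := E) hℓ hq he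
  rw [hN] at hin hout
  have he0 : e ≠ 0 := by
    rintro rfl
    exact he ⟨0, zero_pow hℓ.ne_zero⟩
  have hc0 : ∀ j, algebraMap k E (e ^ j) ≠ 0 := fun j =>
    (map_ne_zero (algebraMap k E)).2 (pow_ne_zero j he0)
  by_cases hu : u = 0
  · have h1 : ∏ j ∈ Finset.range ℓ, lfe ℓ (algebraMap k E (e ^ j) * u) N = 1 := by
      refine Finset.prod_eq_one fun j _ => ?_
      unfold lfe
      rw [if_pos (by rw [hu, mul_zero])]
    rw [h1]
    exact Sup.one
  by_cases hNℓ : ℓ ∣ N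
  · refine Sup.prod _ fun j _ => ?_
    unfold lfe
    split_ifs
    · exact Sup.one
    · exact (Sup.one.sub (Sup.X hNℓ)).pow _
    · exact Sup.sum _ fun i _ => (Sup.X hNℓ).pow _
  · have hprim := hout hNℓ
    set M := (Nat.card E - 1) / ℓ with hM
    set w := (algebraMap k E e) ^ M with hw
    have hMℓ : M * ℓ = Nat.card E - 1 := by
      rw [hM]
      exact Nat.div_mul_cancel hdE
    have := Fintype.ofFinite E
    have hyℓ : (u ^ M) ^ ℓ = 1 := by
      rw [← pow_mul, hMℓ, Nat.card_eq_fintype_card]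
      exact FiniteField.pow_card_sub_one_eq_one u hu
    have : NeZero ℓ := ⟨hℓ.ne_zero⟩
    obtain ⟨i, hi, hwi⟩ := hprim.eq_pow_of_pow_eq_one (ξ := (u ^ M)⁻¹) (by
      rw [inv_pow, hyℓ, inv_one])
    have hval : ∀ j, (algebraMap k E (e ^ j) * u) ^ M = w ^ j * u ^ M := by
      intro j
      rw [mul_pow, map_pow, hw, ← pow_mul, ← pow_mul, mul_comm j M]
    have hi' : lfe ℓ (algebraMap k E (e ^ i) * u) N = (1 - X ^ N) ^ (ℓ - 1) := by
      unfold lfe
      rw [if_neg (mul_ne_zero (hc0 i) hu), if_pos]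
      rw [isPow_iff hℓ hdE (mul_ne_zero (hc0 i) hu), ← hM, hval, hwi,
        inv_mul_cancel₀ (pow_ne_zero M hu)]
    have hj' : ∀ j ∈ (Finset.range ℓ).erase i, lfe ℓ (algebraMap k E (e ^ j) * u) N =
        ∑ i ∈ Finset.range ℓ, (X ^ N) ^ i := by
      intro j hj
      rw [Finset.mem_erase, Finset.mem_range] at hj
      unfold lfe
      rw [if_neg (mul_ne_zero (hc0 j) hu), if_neg]
      rw [isPow_iff hℓ hdE (mul_ne_zero (hc0 j) hu), ← hM, hval]
      intro h
      have h1 : w ^ j = w ^ i := by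
        rw [hwi]
        exact eq_inv_of_mul_eq_one_left h
      exact hj.1 (hprim.pow_inj hj.2 hi h1)
    rw [← Finset.mul_prod_erase _ _ (Finset.mem_range.2 hi), hi', Finset.prod_congr rfl hj',
      Finset.prod_const, Finset.card_erase_of_mem (Finset.mem_range.2 hi), Finset.card_range,
      ← mul_pow, mul_neg_geom_sum, ← pow_mul]
    exact (Sup.one.sub (Sup.X (dvd_mul_left _ _))).pow _

end field

section main

variable {k : Type} [Field k] [Finite k] {ℓ : ℕ}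

/-- the twists of the product over the closed points of the line -/
theorem sup_locL (hℓ : ℓ.Prime) (hq : ((Nat.card k : ℕ) : ZMod ℓ) = 1) {e : k}
    (he : ¬ ∃ v : k, v ^ ℓ = e) (g : Polynomial k) :
    Sup ℓ (∏ j ∈ Finset.range ℓ, locL ℓ (Polynomial.C (e ^ j) * g) 1) := by
  unfold locL
  rw [← eulerProd_prod (finite_d one_pos) _ _ (fun j P => lf_mod hℓ.pos _ _ _)]
  refine Sup.eulerProd (finite_d one_pos) fun P => ?_
  have := finRF P
  have hP : Fact (Irreducible P.1) := ⟨P.2.2⟩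
  have h1 := prod_lfe (E := RF P) hℓ hq he (AdjoinRoot.mk P.1 g) (N := 1 * P.1.natDegree)
    (by rw [finrank_RF, one_mul])
  refine (congrArg (Sup ℓ) (Finset.prod_congr rfl fun j _ => ?_)).mp h1
  rw [lf_eq_lfe P, map_mul, AdjoinRoot.mk_C]
  rfl

omit [Finite k] in
theorem hiff {e : k} (he : e ≠ 0) (D : Polynomial k) (P : MI k) :
    ¬ P.1 ∣ D ↔ ¬ P.1 ∣ Polynomial.C e * D := by
  rw [(Polynomial.isUnit_C.2 (isUnit_iff_ne_zero.2 he)).dvd_mul_left]

/-- the index sets of the twists -/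
def planeE {e : k} (he : e ≠ 0) (D : Polynomial k) :
    (Σ P : {P : MI k // ¬ P.1 ∣ D}, MI (RF P.1)) ≃
      (Σ P : {P : MI k // ¬ P.1 ∣ Polynomial.C e * D}, MI (RF P.1)) where
  toFun z := ⟨⟨z.1.1, (hiff he D _).1 z.1.2⟩, z.2⟩
  invFun z := ⟨⟨z.1.1, (hiff he D _).2 z.1.2⟩, z.2⟩
  left_inv _ := rfl
  right_inv _ := rfl

omit [Finite k] in
theorem tw_scalar (e : k) (f h D : Polynomial k) (P : MI k) :
    tw f h (Polynomial.C e * D) P = Polynomial.C (algebraMap k (RF P) e) * tw f h D P := by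
  unfold tw
  rw [map_mul, AdjoinRoot.mk_C, Polynomial.C_mul, mul_assoc]
  rfl

omit [Finite k] in
/-- the plane part of a twist over the index set of the plane part -/
theorem LF_twist {e : k} (he : e ≠ 0) (f h D : Polynomial k) :
    LF ℓ f h (Polynomial.C e * D) =
      eulerProd (fun z : (Σ P : {P : MI k // ¬ P.1 ∣ D}, MI (RF P.1)) =>
        z.1.1.1.natDegree * z.2.1.natDegree)
      (fun z => lf ℓ (Polynomial.C (algebraMap k (RF z.1.1) e) * tw f h D z.1.1) z.2.1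
        (z.1.1.1.natDegree * z.2.1.natDegree)) := by
  unfold LF
  rw [Pool.Agent.TH943.CY.eulerProd_comp (planeE he D)]
  have key : (fun z : (Σ P : {P : MI k // ¬ P.1 ∣ D}, MI (RF P.1)) =>
      lf ℓ (tw f h (Polynomial.C e * D) (planeE he D z).1.1) (planeE he D z).2.1
        ((planeE he D z).1.1.1.natDegree * (planeE he D z).2.1.natDegree)) =
      (fun z => lf ℓ (Polynomial.C (algebraMap k (RF z.1.1) e) * tw f h D z.1.1) z.2.1
        (z.1.1.1.natDegree * z.2.1.natDegree)) := by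
    funext z
    show lf ℓ (tw f h (Polynomial.C e * D) z.1.1) z.2.1 (z.1.1.1.natDegree * z.2.1.natDegree) = _
    rw [tw_scalar]
  rw [key]
  rfl

theorem sup_LF (hℓ : ℓ.Prime) (hq : ((Nat.card k : ℕ) : ZMod ℓ) = 1) {e : k}
    (he : ¬ ∃ v : k, v ^ ℓ = e) (f h D : Polynomial k) :
    Sup ℓ (∏ j ∈ Finset.range ℓ, LF ℓ f h (Polynomial.C (e ^ j) * D)) := by
  have he0 : e ≠ 0 := by
    rintro rfl
    exact he ⟨0, zero_pow hℓ.ne_zero⟩
  rw [Finset.prod_congr rfl fun j _ => LF_twist (ℓ := ℓ) (pow_ne_zero j he0) f h D,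
    ← eulerProd_prod (Pool.Agent.TH943.CY.plane_finite D) _ _ (fun j z => lf_mod hℓ.pos _ _ _)]
  refine Sup.eulerProd (Pool.Agent.TH943.CY.plane_finite D) fun z => ?_
  obtain ⟨⟨P, hP⟩, Q⟩ := z
  have := finRF P
  have hQf : Fact (Irreducible Q.1) := ⟨Q.2.2⟩
  have h9 : Finite (AdjoinRoot Q.1) := finRF Q
  have h1 := prod_lfe (E := AdjoinRoot Q.1) hℓ hq he (AdjoinRoot.mk Q.1 (tw f h D P))
    (finrank_two Q)
  refine (congrArg (Sup ℓ) (Finset.prod_congr rfl fun j _ => ?_)).mp h1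
  show _ = lf ℓ (Polynomial.C (algebraMap k (RF P) (e ^ j)) * tw f h D P) Q.1
    (P.1.natDegree * Q.1.natDegree)
  rw [lf_eq_lfe Q, map_mul, AdjoinRoot.mk_C]
  rfl

end main

end Pool.Agent.TH639.SE
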